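import Mathlib
import Pool.Agent.TH629.ExpDig
import Pool.Agent.W472.AC.EMeas2

/-!
# Algebraic relations between the digits of powers of `e`

Let `D(X) = a_1 X + ⋯ + a_L X^L`, where the `a_i` are the digits of a real number in base `b`.
Counting coefficients, there are always relations `h_0 M_0 + ⋯ + h_m M_m ≡ 0 mod X^(L+1)` between
`m + 1` given monomials `M_j` in the digit polynomials `D_1, …, D_n` of `n` numbers, with
polynomials `h_j` over `ℚ`, not all zero, of degree at most `L / (m + 1) + 1`.  For the digits of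
powers of `e` there are no relations with coefficients of smaller degree, asymptotically, and this
holds in all bases at once.

The proof combines the transfer from digits to numbers of the starting files `Pool.Agent.W472.AC`
with the measure of linear independence of powers of `e` (starting file `Pool.Agent.TH629.ExpDig`).
-/

set_option autoImplicit false

namespace Pool.Agent.Results.MP_7e9a3a_nt.AlgebraicComplexityOfE

open Finset Polynomial

/-- the `i`-th digit of `x` after the point in base `b` -/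
noncomputable def digit (b : ℕ) (x : ℝ) (i : ℕ) : ℤ := ⌊x * (b : ℝ) ^ i⌋ % (b : ℤ)

/-- the polynomial `a_1 X + a_2 X^2 + ⋯ + a_L X^L`, where `a_i` is the `i`-th digit of `x` after
the point in base `b` -/
noncomputable def digitPoly (b : ℕ) (x : ℝ) (L : ℕ) : ℚ[X] :=
  ∑ i ∈ Icc 1 L, C (digit b x i : ℚ) * X ^ i

/-- there is a nonzero polynomial `P` in `Y` of degree `≤ r` whose coefficients are polynomials in
`X` over `ℚ` of degree `≤ k` with `P(X, a_1 X + ⋯ + a_L X^L)` divisible by `X^(L+1)` -/
def AlgRelation (b : ℕ) (x : ℝ) (r L k : ℕ) : Prop :=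
  ∃ P : ℚ[X][X], P ≠ 0 ∧ P.natDegree ≤ r ∧ (∀ j, (P.coeff j).natDegree ≤ k) ∧
    X ^ (L + 1) ∣ P.eval (digitPoly b x L)

/-- the algebraic complexity of degree `r` of the first `L` digits of `x` in base `b`: the least
`k` for which there is a relation -/
noncomputable def algComplexity (b : ℕ) (x : ℝ) (r L : ℕ) : ℕ := sInf {k | AlgRelation b x r L k}

/-- there are polynomials `h_0, …, h_m` over `ℚ` of degree `≤ k`, not all zero, such that
`∑_j h_j ∏_i D_i ^ (E j i)` is divisible by `X^(L+1)`, where `D_i = a_1 X + ⋯ + a_L X^L` is formed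
with the base `b` digits of `x_i` -/
def MonRelation (b : ℕ) {n m : ℕ} (x : Fin n → ℝ) (E : Fin (m + 1) → Fin n → ℕ) (L k : ℕ) : Prop :=
  ∃ h : Fin (m + 1) → ℚ[X], h ≠ 0 ∧ (∀ j, (h j).natDegree ≤ k) ∧
    X ^ (L + 1) ∣ ∑ j, h j * ∏ i, digitPoly b (x i) L ^ E j i

/-- the least `k` for which there is such a relation between the monomials with exponents `E j`
in the digit polynomials of `x_1, …, x_n` -/
noncomputable def monComplexity (b : ℕ) {n m : ℕ} (x : Fin n → ℝ) (E : Fin (m + 1) → Fin n → ℕ)
    (L : ℕ) : ℕ := sInf {k | MonRelation b x E L k}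

/-- (1) For every `r` the algebraic complexity of degree `r` of the first `L` digits of `e` is
`L / (r + 1) + o(L)`, uniformly in the base.
(2) More generally let `k_1, …, k_n` be natural numbers and let `E_0, …, E_m` be exponent vectors
closed under divisors of monomials, such that the numbers `∏_i (e^(k_i))^(E j i)` are pairwise
different.  Then the least degree of a relation between the monomials with exponents `E j` in the
digit polynomials of `e^(k_1), …, e^(k_n)` is `L / (m + 1) + o(L)`, uniformly in the base. -/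
theorem result :
    (∀ (r : ℕ) (ε : ℝ), 0 < ε → ∃ L₀ : ℕ, ∀ L : ℕ, L₀ ≤ L → ∀ b : ℕ, 2 ≤ b →
      |(algComplexity b (Real.exp 1) r L : ℝ) - L / (r + 1)| < ε * L) ∧
    (∀ (n m : ℕ) (k : Fin n → ℕ) (E : Fin (m + 1) → Fin n → ℕ),
      (∀ j, ∀ a : Fin n → ℕ, a ≤ E j → ∃ j', E j' = a) →
      (Function.Injective fun j => ∑ i, k i * E j i) →
      ∀ ε : ℝ, 0 < ε → ∃ L₀ : ℕ, ∀ L : ℕ, L₀ ≤ L → ∀ b : ℕ, 2 ≤ b →
        |(monComplexity b (fun i => Real.exp (k i)) E L : ℝ) - L / (m + 1)| < ε * L) := by
  refine ⟨fun r ε hε => ?_, fun n m k E hdown hinj ε hε => ?_⟩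
  · obtain ⟨L₀, h⟩ := Pool.Agent.W472.AC.alg_two_sided (Real.exp 1) r
      (fun η hη => Pool.Agent.W472.AC.e_measP r η hη) ε hε
    refine ⟨L₀, fun L hL b hb => ?_⟩
    have h2 : (1 / ((r : ℝ) + 1) - ε) * L < algComplexity b (Real.exp 1) r L ∧
        (algComplexity b (Real.exp 1) r L : ℝ) < (1 / ((r : ℝ) + 1) + ε) * L := h L hL b hb
    have e : (L : ℝ) / (r + 1) = 1 / ((r : ℝ) + 1) * L := by ring
    rw [abs_lt, e]
    constructor <;> linarith [h2.1, h2.2]
  · exact Pool.Agent.TH629.ExpDig.main k E hdown hinj ε hε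

end Pool.Agent.Results.MP_7e9a3a_nt.AlgebraicComplexityOfE
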