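import Mathlib
import Pool.Agent.R473.EC.Exp


/-!
# Algebraic relations between the digits of `e` and of numbers algebraic over `ℚ(e)`, with errors

`D(X) = a_1 X + ⋯ + a_L X^L`, where the `a_i` are the digits of a real number in base `b`.  By a
dimension count there are relations with polynomial coefficients of degree about `L / (m + 1)`
between any `m + 1` monomials in such polynomials modulo `X^(L+1)`.

For the digits of `e`, and more generally for the digits of any finite family of real numbers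
which are algebraic over `ℚ(e)` (for instance `e`, `√2`, `1 / e`, `√e` together) there is a linear
lower bound for the degrees of the coefficients, in all bases at once, and this remains true after
any bounded number of digits has been replaced by other digits.

Proof.  A relation gives a linear form with integer coefficients in the values of the monomials
(`Pool.Agent.W472.AC`); its size contradicts a measure of linear independence over `ℚ`.  We prove
such a measure for all finite families in finite extensions of `ℚ(e)` (norms, and the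
transcendence measure of `e` in `Pool.Agent.W472.AC.EMeas2`).  Changed digits: if `t` is the last changed
place, then the first `t - 1` digits contain fewer changes, hence `t` is bounded by induction, and
the family of the values is only shifted by rational numbers with denominator `b^t`; this changes
the family of monomials by a unipotent matrix and the measure by a factor `b^(-O(t))`.
-/

set_option autoImplicit false

namespace Pool.Agent.Results.MP_7e9a3a_nt.AlgebraicComplexityWithErrors

open Finset Polynomial Module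

/-- the `i`-th digit of `x` after the point in base `b` -/
noncomputable def digit (b : ℕ) (x : ℝ) (i : ℕ) : ℤ := ⌊x * (b : ℝ) ^ i⌋ % (b : ℤ)

/-- the polynomial `s_1 X + s_2 X^2 + ⋯ + s_L X^L` -/
noncomputable def seqPoly (s : ℕ → ℤ) (L : ℕ) : ℚ[X] := ∑ l ∈ Icc 1 L, C (s l : ℚ) * X ^ l

/-- `s` is a sequence of base `b` digits, and among the places `1, …, L` at most `K` are such that
`s_l` is not the `l`-th digit of `x` -/
def Near (b : ℕ) (x : ℝ) (K L : ℕ) (s : ℕ → ℤ) : Prop :=
  (∀ l, 0 ≤ s l ∧ s l < b) ∧ {l : ℕ | 1 ≤ l ∧ l ≤ L ∧ s l ≠ digit b x l}.ncard ≤ K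

/-- `s_1, …, s_n` are sequences of base `b` digits, and among the places `1, …, L` there are at
most `K` at which some `s_i` differs from the digit of `x_i` -/
def JointlyNear (b : ℕ) {n : ℕ} (x : Fin n → ℝ) (K L : ℕ) (s : Fin n → ℕ → ℤ) : Prop :=
  (∀ i l, 0 ≤ s i l ∧ s i l < b) ∧
    {l : ℕ | 1 ≤ l ∧ l ≤ L ∧ ∃ i, s i l ≠ digit b (x i) l}.ncard ≤ K

/-- there are polynomials `h_0, …, h_m` over `ℚ` of degree `≤ k`, not all zero, such that
`∑_j h_j ∏_i S_i ^ (E j i)` is divisible by `X^(L+1)`, where `S_i` is the polynomial of the first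
`L` terms of `s_i` -/
def MonRelation {n m : ℕ} (s : Fin n → ℕ → ℤ) (E : Fin (m + 1) → Fin n → ℕ) (L k : ℕ) : Prop :=
  ∃ h : Fin (m + 1) → ℚ[X], h ≠ 0 ∧ (∀ j, (h j).natDegree ≤ k) ∧
    X ^ (L + 1) ∣ ∑ j, h j * ∏ i, seqPoly (s i) L ^ E j i

/-- the case of one sequence: there is a nonzero polynomial `P(X, Y)` over `ℚ` of degree `≤ r` in
`Y` and `≤ k` in `X` such that `P(X, S(X))` is divisible by `X^(L+1)` -/
def AlgRelation (s : ℕ → ℤ) (r L k : ℕ) : Prop :=
  ∃ P : ℚ[X][X], P ≠ 0 ∧ P.natDegree ≤ r ∧ (∀ j, (P.coeff j).natDegree ≤ k) ∧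
    X ^ (L + 1) ∣ P.eval (seqPoly s L)

/-- **(1)** Let `x_1, …, x_n` be real numbers algebraic over `ℚ(e)`, and let `E` be a finite set of
exponents, closed under divisors, such that the monomials with these exponents in `x_1, …, x_n` are
linearly independent over `ℚ`.  There is a constant `A` such that for all bases `b ≥ 2`, all `K`
and all `L`: if at most `K` places of the first `L` base `b` digits of the `x_i` are changed, then
a relation between the monomials in the digit polynomials modulo `X^(L+1)`, with coefficients of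
degree at most `k`, is only possible for `L ≤ A^(K+1) (k + 1)`.

**(2)** For `e` and for every real number algebraic over `ℚ(e)` but not over `ℚ`: for every `r`
there is such an `A` for the relations of degree at most `r` in the digit polynomial. -/
theorem result :
    (∀ (n m : ℕ) (x : Fin n → ℝ),
      (∀ i, IsAlgebraic (IntermediateField.adjoin ℚ ({Real.exp 1} : Set ℝ)) (x i)) →
      ∀ E : Fin (m + 1) → Fin n → ℕ, (∀ j, ∀ a : Fin n → ℕ, a ≤ E j → ∃ j', E j' = a) →
      (LinearIndependent ℚ fun j => ∏ i, x i ^ E j i) →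
      ∃ A : ℝ, 1 ≤ A ∧ ∀ b : ℕ, 2 ≤ b → ∀ K L k : ℕ, ∀ s : Fin n → ℕ → ℤ,
        JointlyNear b x K L s → MonRelation s E L k → (L : ℝ) ≤ A ^ (K + 1) * (k + 1)) ∧
    (∀ x : ℝ, IsAlgebraic (IntermediateField.adjoin ℚ ({Real.exp 1} : Set ℝ)) x →
      Transcendental ℚ x → ∀ r : ℕ,
      ∃ A : ℝ, 1 ≤ A ∧ ∀ b : ℕ, 2 ≤ b → ∀ K L k : ℕ, ∀ s : ℕ → ℤ,
        Near b x K L s → AlgRelation s r L k → (L : ℝ) ≤ A ^ (K + 1) * (k + 1)) := by
  have part1 : ∀ (n m : ℕ) (x : Fin n → ℝ),
      (∀ i, IsAlgebraic (IntermediateField.adjoin ℚ ({Real.exp 1} : Set ℝ)) (x i)) →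
      ∀ E : Fin (m + 1) → Fin n → ℕ, (∀ j, ∀ a : Fin n → ℕ, a ≤ E j → ∃ j', E j' = a) →
      (LinearIndependent ℚ fun j => ∏ i, x i ^ E j i) →
      ∃ A : ℝ, 1 ≤ A ∧ ∀ b : ℕ, 2 ≤ b → ∀ K L k : ℕ, ∀ s : Fin n → ℕ → ℤ,
        JointlyNear b x K L s → MonRelation s E L k → (L : ℝ) ≤ A ^ (K + 1) * (k + 1) := by
    intro n m x hx E hdown hli
    obtain ⟨A, hA, h⟩ := Pool.Agent.R473.EC.errors_alg (Real.exp 1) Pool.Agent.R473.EC.measR_e x hx E
      hdown hli
    exact ⟨A, hA, fun b hb K L k s hs hrel => h b hb K L k s hs.1 hs.2 hrel⟩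
  refine ⟨part1, fun x hx htr r => ?_⟩
  obtain ⟨E, hE⟩ : ∃ E : Fin (r + 1) → Fin 1 → ℕ, E = fun (j : Fin (r + 1)) _ => (j : ℕ) :=
    ⟨_, rfl⟩
  have hmon : ∀ (R : Type) [CommRing R] (y : Fin 1 → R) (j : Fin (r + 1)),
      ∏ i, y i ^ E j i = y 0 ^ (j : ℕ) := by
    intro R _ y j
    rw [hE]
    simp
  have hli : LinearIndependent ℚ fun j : Fin (r + 1) => ∏ i : Fin 1, (fun _ => x) i ^ E j i := by
    have h1 : (fun j : Fin (r + 1) => ∏ i : Fin 1, (fun _ => x) i ^ E j i) =
        fun j : Fin (r + 1) => x ^ (j : ℕ) := by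
      ext j
      exact hmon ℝ (fun _ => x) j
    rw [h1]
    have h2 : LinearIndependent ℚ fun j : ℕ => x ^ j := by
      have h3 : LinearIndependent ℚ fun j : ℕ => (X ^ j : ℚ[X]) := by
        have := (Polynomial.basisMonomials ℚ).linearIndependent
        simpa [Polynomial.coe_basisMonomials, Polynomial.X_pow_eq_monomial] using this
      have h4 := h3.map' (aeval x : ℚ[X] →ₐ[ℚ] ℝ).toLinearMap (by
        rw [LinearMap.ker_eq_bot]
        exact transcendental_iff_injective.1 htr)
      have h5 : (⇑(aeval x : ℚ[X] →ₐ[ℚ] ℝ).toLinearMap ∘ fun j : ℕ => (X ^ j : ℚ[X])) =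
          fun j : ℕ => x ^ j := by
        ext j
        simp
      rwa [h5] at h4
    exact h2.comp (fun j : Fin (r + 1) => (j : ℕ)) Fin.val_injective
  obtain ⟨A, hA, h⟩ := part1 1 r (fun _ => x) (fun _ => hx) E (fun j a ha => by
    have h0 : a 0 ≤ E j 0 := ha 0
    rw [hE] at h0 ⊢
    simp only [] at h0 ⊢
    refine ⟨⟨a 0, by have := j.2; omega⟩, ?_⟩
    ext i
    rw [Subsingleton.elim i 0]) hli
  refine ⟨A, hA, fun b hb K L k s hs hrel => h b hb K L k (fun _ => s) ⟨fun _ l => hs.1 l, ?_⟩ ?_⟩
  · have h1 : {l : ℕ | 1 ≤ l ∧ l ≤ L ∧ ∃ i : Fin 1, (fun _ => s) i l ≠ digit b ((fun _ => x) i) l} =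
        {l : ℕ | 1 ≤ l ∧ l ≤ L ∧ s l ≠ digit b x l} := by
      ext l
      simp
    rw [h1]
    exact hs.2
  · obtain ⟨P, hP0, hPr, hPk, hX⟩ := hrel
    refine ⟨fun j => P.coeff j, ?_, fun j => hPk j, ?_⟩
    · intro h0
      apply hP0
      ext1 j
      by_cases hj : j < r + 1
      · have := congrFun h0 ⟨j, hj⟩
        simpa using this
      · rw [coeff_eq_zero_of_natDegree_lt (by omega), coeff_zero]
    · rw [eval_eq_sum_range' (show P.natDegree < r + 1 by omega), Finset.sum_range] at hX
      have h2 : ∑ j : Fin (r + 1), P.coeff (j : ℕ) * ∏ i : Fin 1, seqPoly ((fun _ => s) i) L ^ E j i =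
          ∑ j : Fin (r + 1), P.coeff (j : ℕ) * seqPoly s L ^ (j : ℕ) := by
        refine Finset.sum_congr rfl fun j _ => ?_
        rw [hmon ℚ[X] (fun _ => seqPoly s L) j]
      rw [h2]
      exact hX

end Pool.Agent.Results.MP_7e9a3a_nt.AlgebraicComplexityWithErrors
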