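import Mathlib
import Pool.Agent.TH629.ExpAlg2

/-!
# The joint digits of `e` and `√2`

`D_x(X) = a_1 X + ⋯ + a_L X^L`, where the `a_i` are the digits of the real number `x` in base `b`.
By a dimension count there are relations with polynomial coefficients of degree about `L / (m + 1)`
between any `m + 1` monomials in such polynomials, modulo `X^(L+1)`.  For numbers `x_i = α_i e^(k_i)`
with `α_i` in a real number field (for instance `e` and `√2`) there is a linear lower bound for the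
degree of the coefficients, in all bases at once: the digits of `e` and of `√2` are jointly far from
satisfying an algebraic relation.

The main theorem is proved in the starting file `Pool.Agent.TH629.ExpAlg2`.
-/

set_option autoImplicit false

namespace Pool.Agent.Results.MP_7e9a3a_nt.JointDigitsEAndSqrtTwo

open Finset Polynomial Module

/-- the `i`-th digit of `x` after the point in base `b` -/
noncomputable def digit (b : ℕ) (x : ℝ) (i : ℕ) : ℤ := ⌊x * (b : ℝ) ^ i⌋ % (b : ℤ)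

/-- the polynomial `a_1 X + a_2 X^2 + ⋯ + a_L X^L`, where `a_i` is the `i`-th digit of `x` after
the point in base `b` -/
noncomputable def digitPoly (b : ℕ) (x : ℝ) (L : ℕ) : ℚ[X] :=
  ∑ i ∈ Icc 1 L, C (digit b x i : ℚ) * X ^ i

/-- there are polynomials `h_0, …, h_m` over `ℚ` of degree `≤ k`, not all zero, such that
`∑_j h_j ∏_i D_i ^ (E j i)` is divisible by `X^(L+1)`, where `D_i = a_1 X + ⋯ + a_L X^L` is formed
with the base `b` digits of `x_i` -/
def MonRelation (b : ℕ) {n m : ℕ} (x : Fin n → ℝ) (E : Fin (m + 1) → Fin n → ℕ) (L k : ℕ) : Prop :=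
  ∃ h : Fin (m + 1) → ℚ[X], h ≠ 0 ∧ (∀ j, (h j).natDegree ≤ k) ∧
    X ^ (L + 1) ∣ ∑ j, h j * ∏ i, digitPoly b (x i) L ^ E j i

/-- the least `k` for which there is such a relation between the monomials with exponents `E j`
in the digit polynomials of `x_1, …, x_n` -/
noncomputable def monComplexity (b : ℕ) {n m : ℕ} (x : Fin n → ℝ) (E : Fin (m + 1) → Fin n → ℕ)
    (L : ℕ) : ℕ := sInf {k | MonRelation b x E L k}

/-- the exponents of the monomials `e ^ (t / 2) * √2 ^ (t % 2)`, `t ≤ 2 r + 1`: these are all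
monomials of degree at most `r` in the first and at most `1` in the second variable -/
def E2 (r : ℕ) (t : Fin (2 * r + 1 + 1)) : Fin 2 → ℕ := ![(t : ℕ) / 2, (t : ℕ) % 2]

lemma E2_down (r : ℕ) (j : Fin (2 * r + 1 + 1)) (a : Fin 2 → ℕ) (ha : a ≤ E2 r j) :
    ∃ j', E2 r j' = a := by
  have h0 : a 0 ≤ (j : ℕ) / 2 := ha 0
  have h1 : a 1 ≤ (j : ℕ) % 2 := ha 1
  have hj := j.2
  refine ⟨⟨2 * a 0 + a 1, by omega⟩, ?_⟩
  ext i
  unfold E2
  fin_cases i
  · show (2 * a 0 + a 1) / 2 = a 0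
    omega
  · show (2 * a 0 + a 1) % 2 = a 1
    omega

open Pool.Agent.TH629.ExpAlg in
/-- the case of `e` and `√2` -/
theorem e_sqrt (r : ℕ) (ε : ℝ) (hε : 0 < ε) :
    ∃ L₀ : ℕ, ∀ L : ℕ, L₀ ≤ L → ∀ b : ℕ, 2 ≤ b →
      (1 / (2 * (2 * (r : ℝ) + 1)) - ε) * L <
        monComplexity b ![Real.exp 1, √2] (E2 r) L := by
  classical
  obtain ⟨i2, f2⟩ := finrank_sqrt_le 2
  push_cast at i2 f2
  obtain ⟨K, hK⟩ : ∃ K : IntermediateField ℚ ℝ, K = IntermediateField.adjoin ℚ {(√2 : ℝ)} :=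
    ⟨_, rfl⟩
  have hfd : FiniteDimensional ℚ K := by
    rw [hK]
    exact IntermediateField.adjoin.finiteDimensional i2
  have hfr : finrank ℚ K ≤ 2 := by
    rw [hK]
    exact f2
  have hm2 : (√2 : ℝ) ∈ K := by
    rw [hK]
    exact IntermediateField.mem_adjoin_simple_self ℚ _
  obtain ⟨α, hα⟩ : ∃ α : Fin 2 → K, α = ![1, ⟨√2, hm2⟩] := ⟨_, rfl⟩
  obtain ⟨k, hk⟩ : ∃ k : Fin 2 → ℕ, k = ![1, 0] := ⟨_, rfl⟩
  have hx : (fun i => (α i : ℝ) * Real.exp (k i)) = ![Real.exp 1, √2] := by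
    rw [hα, hk]
    ext i
    fin_cases i <;> simp
  have hmon : ∀ t : Fin (2 * r + 1 + 1), ∏ i, ((α i : ℝ) * Real.exp (k i)) ^ E2 r t i =
      Real.exp 1 ^ ((t : ℕ) / 2) * √2 ^ ((t : ℕ) % 2) := by
    intro t
    have h1 : ∀ i, (α i : ℝ) * Real.exp (k i) = ![Real.exp 1, √2] i :=
      fun i => congrFun hx i
    simp_rw [h1]
    rw [Fin.prod_univ_two]
    unfold E2
    show Real.exp 1 ^ ((t : ℕ) / 2) * √2 ^ ((t : ℕ) % 2) = _
    ring
  have hli : LinearIndependent ℚ fun j => ∏ i, ((α i : ℝ) * Real.exp (k i)) ^ E2 r j i := by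
    rw [Fintype.linearIndependent_iff]
    intro g hg
    simp_rw [hmon] at hg
    let σ : Fin (r + 1) × Fin 2 ≃ Fin (2 * r + 1 + 1) :=
      finProdFinEquiv.trans (finCongr (by ring))
    have hσ : ∀ p : Fin (r + 1) × Fin 2, ((σ p : Fin (2 * r + 1 + 1)) : ℕ) =
        (p.2 : ℕ) + 2 * (p.1 : ℕ) := by
      intro p
      simp [σ]
    obtain ⟨γ, hγ⟩ : ∃ γ : Fin (r + 1) → K, γ = fun i =>
      algebraMap ℚ K (g (σ (i, 0))) + algebraMap ℚ K (g (σ (i, 1))) * ⟨√2, hm2⟩ := ⟨_, rfl⟩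
    have hγR : ∀ i, ((γ i : K) : ℝ) = (g (σ (i, 0)) : ℝ) + g (σ (i, 1)) * √2 := by
      intro i
      rw [hγ]
      push_cast
      simp
    have hsum : ∑ i : Fin (r + 1), ((γ i : K) : ℝ) * Real.exp 1 ^ (i : ℕ) = 0 := by
      rw [← hg, ← Equiv.sum_comp σ, Fintype.sum_prod_type]
      refine Finset.sum_congr rfl fun i _ => ?_
      rw [hγR, Fin.sum_univ_two]
      simp only [hσ, Rat.smul_def]
      have e0 : ((0 : Fin 2) : ℕ) = 0 := rfl
      have e1 : ((1 : Fin 2) : ℕ) = 1 := rfl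
      rw [e0, e1]
      have a0 : (0 + 2 * (i : ℕ)) / 2 = i := by omega
      have a1 : (1 + 2 * (i : ℕ)) / 2 = i := by omega
      have c0 : (0 + 2 * (i : ℕ)) % 2 = 0 := by omega
      have c1 : (1 + 2 * (i : ℕ)) % 2 = 1 := by omega
      rw [a0, a1, c0, c1]
      ring
    have hγ0 : ∀ i, γ i = 0 := by
      obtain ⟨p, hp⟩ : ∃ p : K[X], p = ∑ i : Fin (r + 1), C (γ i) * X ^ (i : ℕ) := ⟨_, rfl⟩
      have hp0 : p = 0 := by
        by_contra hne
        have halg : IsAlgebraic K (Real.exp 1) := by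
          refine ⟨p, hne, ?_⟩
          rw [hp, map_sum]
          simp only [map_mul, aeval_C, map_pow, aeval_X]
          exact hsum
        exact exp_one_transcendental (halg.restrictScalars ℚ)
      intro i
      have h1 : p.coeff (i : ℕ) = γ i := by
        rw [hp, finsetSum_coeff]
        simp only [coeff_C_mul, coeff_X_pow]
        rw [Finset.sum_eq_single i]
        · simp
        · intro j _ hj
          have : (i : ℕ) ≠ (j : ℕ) := fun h => hj (Fin.ext h.symm)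
          simp [this]
        · intro h
          exact absurd (mem_univ i) h
      rw [← h1, hp0, coeff_zero]
    intro t
    obtain ⟨⟨i, s⟩, rfl⟩ := σ.surjective t
    have h1 := hγR i
    rw [hγ0 i] at h1
    obtain ⟨h2, h3⟩ := two_indep (g (σ (i, 0))) (g (σ (i, 1))) (by
      rw [← h1]
      simp)
    fin_cases s
    · exact h2
    · exact h3
  obtain ⟨L₀, h⟩ := Pool.Agent.TH629.ExpAlg.main K α k (E2 r) (E2_down r) r (fun j => by
    rw [hk, Fin.sum_univ_two]
    unfold E2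
    show 1 * ((j : ℕ) / 2) + 0 * _ ≤ r
    have := j.2
    omega) hli ε hε
  refine ⟨L₀, fun L hL b hb => ?_⟩
  have h1 := (h L hL b hb).1
  rw [hx] at h1
  refine lt_of_le_of_lt ?_ h1
  refine mul_le_mul_of_nonneg_right ?_ (Nat.cast_nonneg L)
  have hd4 : (finrank ℚ K : ℝ) ≤ 2 := by exact_mod_cast hfr
  have hd1 : (1 : ℝ) ≤ finrank ℚ K := by exact_mod_cast (finrank_pos : 0 < finrank ℚ K)
  have hr0 : (0 : ℝ) ≤ r := Nat.cast_nonneg r
  have h3 : (finrank ℚ K : ℝ) * (finrank ℚ K * r + 1) ≤ 2 * (2 * (r : ℝ) + 1) := by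
    have : (finrank ℚ K : ℝ) * r ≤ 2 * r := mul_le_mul_of_nonneg_right hd4 hr0
    nlinarith [mul_nonneg (by linarith : (0 : ℝ) ≤ finrank ℚ K) hr0]
  have h4 : 1 / (2 * (2 * (r : ℝ) + 1)) ≤
      1 / ((finrank ℚ K : ℝ) * (finrank ℚ K * r + 1)) := by
    apply one_div_le_one_div_of_le _ h3
    positivity
  linarith

/-- (1) For every `r ≥ 0` and `ε > 0`, for all large `L` and all bases `b ≥ 2`: if
`∑ h_(i,j) D_e^i D_√2^j` (`i ≤ r`, `j ≤ 1`, `h_(i,j)` polynomials, not all zero) is divisible by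
`X^(L+1)` then some `h_(i,j)` has degree larger than `(1 / (2 (2 r + 1)) - ε) L`.
(2) The general form, with the bounds from both sides: let `K` be a real number field of degree `d`,
`α_1, …, α_n ∈ K`, `k_1, …, k_n ∈ ℕ`, `x_i = α_i e^(k_i)`; let `E_0, …, E_m` be exponent vectors
closed under divisors, with `∑_i k_i E_(j,i) ≤ R`, and suppose that the numbers
`∏_i x_i^(E_(j,i))` are linearly independent over `ℚ`. -/
theorem result :
    (∀ (r : ℕ) (ε : ℝ), 0 < ε → ∃ L₀ : ℕ, ∀ L : ℕ, L₀ ≤ L → ∀ b : ℕ, 2 ≤ b →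
      (1 / (2 * (2 * (r : ℝ) + 1)) - ε) * L <
        monComplexity b ![Real.exp 1, √2] (E2 r) L) ∧
    (∀ (K : IntermediateField ℚ ℝ) [FiniteDimensional ℚ K] (n m : ℕ) (α : Fin n → K)
      (k : Fin n → ℕ) (E : Fin (m + 1) → Fin n → ℕ) (R : ℕ),
      (∀ j, ∀ a : Fin n → ℕ, a ≤ E j → ∃ j', E j' = a) → (∀ j, ∑ i, k i * E j i ≤ R) →
      (LinearIndependent ℚ fun j => ∏ i, ((α i : ℝ) * Real.exp (k i)) ^ E j i) →
      ∀ ε : ℝ, 0 < ε → ∃ L₀ : ℕ, ∀ L : ℕ, L₀ ≤ L → ∀ b : ℕ, 2 ≤ b →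
        (1 / ((finrank ℚ K : ℝ) * (finrank ℚ K * R + 1)) - ε) * L <
          monComplexity b (fun i => (α i : ℝ) * Real.exp (k i)) E L ∧
        (monComplexity b (fun i => (α i : ℝ) * Real.exp (k i)) E L : ℝ) <
          (1 / ((m : ℝ) + 1) + ε) * L) :=
  ⟨fun r ε hε => e_sqrt r ε hε, fun K _ n m α k E R hdown hR hli ε hε =>
    Pool.Agent.TH629.ExpAlg.main K α k E hdown R hR hli ε hε⟩

end Pool.Agent.Results.MP_7e9a3a_nt.JointDigitsEAndSqrtTwo
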