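import Mathlib
import Pool.Agent.TH842.HS.Power
import Pool.Agent.TH419.FS.Consts
import Pool.Agent.R473.LogRel

/-!
# Machines with stacks that write the digits of `e`, `π` or `√2`

A machine with finitely many stacks (for instance a multi-tape Turing machine: every tape consists
of two stacks) writes the digits of one of these numbers.  How often does it have to use the part of
its memory outside one of the stacks?  We count the steps in which a nonempty stack other than `k₀`
is popped.  Without such steps the machine works with the single stack `k₀`, and what it writes is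
eventually periodic.

The definition of the machines and the first main step (the words which are written between two
such steps are concatenations of few powers of short words) are in the starting files
`Pool.Agent.W979.HS`, `Pool.Agent.TH842.HS.Power`, the lower bound for `√2` uses the start result
`DigitRelations`, the lower bound for `π` and `e` uses the irrationality measures.
-/

set_option autoImplicit false

namespace Pool.Agent.Results.MP_7e9a3a_nt.StackMachines

open Finset Filter Pool.Agent.W979.HS NumberField IntermediateField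

/-- The machine `M` writes at most `s` other symbols and then digits (all or only finitely many) of
the fractional part of `x` in base `b`: the symbol number `s + i` is the digit `⌊b ^ (i+1) x⌋ mod b`
(`i ≥ 0`), at any time and whenever it has been written. -/
def Writes (M : StackMachine) (b : ℕ) (x : ℝ) (s : ℕ) : Prop :=
  ∀ (T i d : ℕ), (M.output T)[s + i]? = some d → (d : ℤ) = ⌊(b : ℝ) ^ (i + 1) * x⌋ % (b : ℤ)

open Classical in
/-- the number of the steps before the step `T` in which a nonempty stack other than `k₀` is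
popped -/
noncomputable def pops (M : StackMachine) (k₀ : M.ι) (T : ℕ) : ℕ :=
  ((range T).filter (M.PopOutside k₀)).card

/-- all primes of `ℚ(√2)` above `2` are ramified -/
theorem ramified (P : Ideal (𝓞 ℚ⟮(√2 : ℝ)⟯)) (hP : P.IsPrime) (h2 : (2 : 𝓞 ℚ⟮(√2 : ℝ)⟯) ∈ P) :
    (2 : 𝓞 ℚ⟮(√2 : ℝ)⟯) ∈ P ^ 2 := by
  have hs : (√2 : ℝ) * √2 = 2 := Real.mul_self_sqrt (by norm_num)
  obtain ⟨t, ht⟩ : ∃ t : ℚ⟮(√2 : ℝ)⟯, (t : ℝ) = √2 :=
    ⟨⟨√2, mem_adjoin_simple_self ℚ _⟩, rfl⟩
  have htt : t * t = 2 := by
    apply Subtype.ext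
    push_cast
    rw [ht]
    exact hs
  have hint : IsIntegral ℤ t := by
    refine ⟨Polynomial.X ^ 2 - Polynomial.C 2, Polynomial.monic_X_pow_sub_C _ two_ne_zero, ?_⟩
    simp [pow_two, htt]
  obtain ⟨u, hu⟩ : ∃ u : 𝓞 ℚ⟮(√2 : ℝ)⟯, algebraMap (𝓞 ℚ⟮(√2 : ℝ)⟯) ℚ⟮(√2 : ℝ)⟯ u = t :=
    ⟨⟨t, hint⟩, rfl⟩
  have huu : u * u = 2 := by
    apply FaithfulSMul.algebraMap_injective (𝓞 ℚ⟮(√2 : ℝ)⟯) ℚ⟮(√2 : ℝ)⟯
    rw [map_mul, hu, htt, map_ofNat]
  have huP : u ∈ P := by
    rcases hP.mem_or_mem (huu ▸ h2 : u * u ∈ P) with h | h <;> exact h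
  rw [← huu, pow_two]
  exact Ideal.mul_mem_mul huP huP

/-- (1) For every odd base `b ≥ 3` a machine which writes the digits of `√2` has to pop stacks other
than `k₀` at least `c N ^ δ` times before it has written `N` digits, for some `c, δ > 0` which depend
on the machine and all large `N`, whichever stack `k₀` is left out.
(2) For `e`, `π` and `√2` and every base `b ≥ 2` this happens at least `c log N` times. -/
theorem result :
    (∀ b : ℕ, 3 ≤ b → Odd b → ∀ (M : StackMachine) (k₀ : M.ι) (s : ℕ), Writes M b √2 s →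
      ∃ c δ : ℝ, 0 < c ∧ 0 < δ ∧ ∃ N0 : ℕ, ∀ N T : ℕ, N0 ≤ N → N ≤ (M.output T).length →
        c * (N : ℝ) ^ δ ≤ pops M k₀ T) ∧
    (∀ x : ℝ, x = Real.exp 1 ∨ x = Real.pi ∨ x = √2 → ∀ b : ℕ, 2 ≤ b →
      ∀ (M : StackMachine) (k₀ : M.ι) (s : ℕ), Writes M b x s →
        ∃ c : ℝ, 0 < c ∧ ∃ N0 : ℕ, ∀ N T : ℕ, N0 ≤ N → N ≤ (M.output T).length →
          c * Real.log N ≤ pops M k₀ T) := by
  refine ⟨fun b hb hodd M k₀ s hw => ?_, fun x hx b hb M k₀ s hw => ?_⟩
  · have halg : IsAlgebraic ℚ (√2 : ℝ) := by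
      refine ⟨Polynomial.X ^ 2 - Polynomial.C 2, (Polynomial.monic_X_pow_sub_C _ two_ne_zero).ne_zero,
        ?_⟩
      simp
    have h1 := (Pool.Agent.Results.MP_7e9a3a_nt.DigitRelations.result (√2) halg).1 2
      Nat.prime_two (fun P hP h2 => by
        have := ramified P hP (by exact_mod_cast h2)
        exact_mod_cast this) b (by omega) (by
        rw [← even_iff_two_dvd, Nat.not_even_iff_odd]
        exact hodd)
    exact Pool.Agent.TH842.HS.machine_pow b (√2) (fun P hP =>
      Pool.Agent.TH842.HS.rel_of_fail (√2) b (by omega) h1 P hP) M k₀ s hw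
  · have hmeas : ∃ μ c : ℝ, 0 < c ∧ ∀ q : ℕ, 1 ≤ q → ∀ p : ℤ,
        c ≤ (q : ℝ) ^ μ * |q * x - p| := by
      rcases hx with rfl | rfl | rfl
      · obtain ⟨c, hc, h⟩ := Pool.Agent.TH419.FS.meas_exp (η := 1) one_pos
        exact ⟨_, c, hc, h⟩
      · obtain ⟨c, hc, h⟩ := Pool.Agent.TH419.FS.meas_pi
        exact ⟨_, c, hc, h⟩
      · obtain ⟨c, hc, h⟩ := Pool.Agent.TH419.FS.meas_sqrt
        exact ⟨_, c, hc, h⟩
    obtain ⟨μ, c, hc, h⟩ := hmeas
    have hlt : Tendsto (fun N : ℕ => Real.log (N : ℝ)) atTop atTop :=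
      Real.tendsto_log_atTop.comp tendsto_natCast_atTop_atTop
    exact machine_access b x (fun N => Real.log N) hlt
      (fun P hP => Pool.Agent.R473.LogRel.log_rel b hb x μ c hc h P hP) M k₀ s hw

end Pool.Agent.Results.MP_7e9a3a_nt.StackMachines
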